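import Pool.Agent.Run7.h414.HL.G

/-!
# EVERY large `n`: the number of the splittings `n = k + m` with `p_k + N₀` and `p_{p_m} + N₁` prime, where the number `2` of the
# problem is replaced by random multiples of a small primorial

The digits of the random integer `v` are given by a determinantal random set `S` of positions (a determinantal point process
with an arbitrary Hermitian kernel): the digit number `i` is `y i` if `i ∈ S` and `x i ≠ y i` otherwise. Examples (their
existence is not used and not formalised): the edges of a uniform spanning tree of a graph with `d` edges; stationary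
determinantal processes with any symbol which is not almost everywhere `0` or almost everywhere `1` (for example the discrete
sine process with any density); independent digits, for example the integers all of whose digits are `0` or `1`.

Definitions used (in `Pool.Agent.Run7.h414.DP.Law` and `Pool.Agent.Run7.h414.DP.Fam`): `DetLaw`, `GoodPos`, `DetDigits`
(used with `t = 0`: `0 ≤ p v ≤ μ v` with the law `μ` of an integer with determinantal digits).

Method: the characteristic function is `det (1 + D A)`; the inequality `|det N|² ≤ exp (tr N* N - k)` for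
`N = 1 + B D B*`, `A = B* B`, bounds it by `exp (- E)` with an energy `E` which is at least a constant times the number of
the places where the frequency is far from the rational numbers with small denominators. With this input the sieve and the
circle method of the starting library for exchangeable blocks (`Pool.Agent.N625.PT`, in the form for classes of laws of
`Pool.Agent.Run7.h672.XC`) go through.
-/

set_option autoImplicit false

open Finset
open Pool.Agent.Run7.h414.DP (DetDigits)
open Pool.Agent.Run7.h414.HL (det_tuple' bad_few pr pr_prime pr_lt pr_strict pr_inj pr_le)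

namespace Pool.Agent.Results.MP_04e9b2_nt.IndicesOnAverage

/-- the `j`-th prime, `j ≥ 1` -/
noncomputable def p (j : ℕ) : ℕ := Nat.nth Nat.Prime (j - 1)

/-- the product of `1 - 1/q` over the primes `q ≤ y` -/
noncomputable def V (y : ℕ) : ℝ := ∏ q ∈ (Icc 1 y).filter Nat.Prime, (1 - 1 / (q : ℝ))

/-- the multiple of the product of the primes `≤ y` given by the integers `h` and `c + κ v` -/
def Nv (y h : ℕ) (c κ : ℤ) (v : ℕ) : ℤ := ((primorial y * h : ℕ) : ℤ) * (c + κ * v)

/-- the number of the splittings `n = k + m`, `k, m ≥ 1`, such that `p_k + N 0` and `p_{p_m} + N 1` are prime -/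
noncomputable def Split (n : ℕ) (N : Fin 2 → ℤ) : ℝ :=
  ((Icc 1 (n - 1)).filter (fun k : ℕ => ((p k : ℤ) + N 0).toNat.Prime ∧ ((p (p (n - k)) : ℤ) + N 1).toNat.Prime)).card

/-- Let `b ≥ 2`, `L` and `η > 0`, and let `v j < b ^ d`, `j < 2`, be independent random integers with `d` determinantal digits
in base `b` (`DetDigits b L η 0 d (μ j)`), let `y` be between `θ log d` and `K₁ log d` (`θ > 0` is arbitrary), `M` the
product of the primes `≤ y` (a power of `d` only), `|c j| ≤ B b ^ d`, `1 ≤ h j ≤ d ^ J`, `N_j = M h_j (c_j + κ_j v_j)`, and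
let `n` be ANY integer with `b ^ d ≤ n d ^ C`, `n ≤ b ^ d d ^ C`. Up to a probability of at most `ε`, if all `N_j > 0`, then
the number of the splittings `n = k + m`, `k, m ≥ 1`, such that `p_k + N_0` and `p_{p_m} + N_1` are prime differs from
`E = (n - 1) / (V y log b ^ d) ^ 2` by at most `ε E`. -/
theorem result : ∀ b L : ℕ, 2 ≤ b → ∀ η : ℝ, 0 < η → ∀ (κ : Fin 2 → ℤ), (∀ j, κ j ≠ 0) →
    ∀ (B J C K₁ : ℕ) (θ : ℝ), 0 < θ → ∀ ε : ℝ, 0 < ε → ε ≤ 1 → ∃ d₀ : ℕ, ∀ d : ℕ, d₀ ≤ d →
    ∀ μ : Fin 2 → ℕ → ℝ, (∀ j, DetDigits b L η 0 d (μ j)) →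
    ∀ y : ℕ, θ * Real.log d ≤ y → y ≤ K₁ * Real.log d →
    ∀ c : Fin 2 → ℤ, (∀ j, |c j| ≤ B * (b : ℤ) ^ d) → ∀ h : Fin 2 → ℕ, (∀ j, 1 ≤ h j ∧ h j ≤ d ^ J) →
    ∀ n : ℕ, b ^ d ≤ n * d ^ C → n ≤ b ^ d * d ^ C →
      ∑ v ∈ Fintype.piFinset (fun _ : Fin 2 => range (b ^ d)), (if (∀ j, 0 < Nv y (h j) (c j) (κ j) (v j)) →
        |Split n (fun j => Nv y (h j) (c j) (κ j) (v j)) - ((n : ℝ) - 1) / (V y * (d * Real.log b)) ^ 2| ≤
          ε * (((n : ℝ) - 1) / (V y * (d * Real.log b)) ^ 2) then 0 else ∏ j, μ j (v j)) ≤ ε := by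
  classical
  intro b L hb η hη κ hκ B J C K₁ θ hθ ε hε hε1
  obtain ⟨k0, h0⟩ := det_tuple' b L hb η hη 2 κ hκ B J 11 (C + 10) (2 * K₁ + J + 1) K₁ θ hθ ε hε hε1
  obtain ⟨k1, h1⟩ := pr_le b C hb
  obtain ⟨k2, h2⟩ := Pool.Agent.N625.PT.X_large b C hb
  refine ⟨max (max k0 k1) (max k2 3), fun d hd μ hμ y hy1 hy2 c hc h hh n hn1 hn2 => ?_⟩
  have hd3 : 3 ≤ d := by omega
  have hdn := h2 d (by omega) n hn1
  have hpr := h1 d (by omega) n hn1 hn2
  have hd1 : 1 ≤ d ^ 10 := Nat.one_le_pow _ _ (by omega)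
  have hd4 : d ^ 4 ≤ d ^ 10 := Nat.pow_le_pow_right (by omega) (by norm_num)
  obtain ⟨I, hI⟩ : ∃ I, I = Icc 1 (n - 1) := ⟨_, rfl⟩
  have hIc : I.card = n - 1 := by rw [hI, Nat.card_Icc]; omega
  obtain ⟨f, hf⟩ : ∃ f : Fin 2 → ℕ → ℕ, f = ![fun k => pr k, fun k => pr (pr (n - k))] := ⟨_, rfl⟩
  have f0 : ∀ k, f 0 k = pr k := fun k => by rw [hf]; rfl
  have f1 : ∀ k, f 1 k = pr (pr (n - k)) := fun k => by rw [hf]; rfl
  have hinj0 : Set.InjOn (f 0) I := by
    intro k hk k' hk' hkk
    rw [hI, coe_Icc, Set.mem_Icc] at hk hk'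
    rw [f0, f0] at hkk
    exact pr_inj hk.1 hk'.1 hkk
  have hinj1 : Set.InjOn (f 1) I := by
    intro k hk k' hk' hkk
    rw [hI, coe_Icc, Set.mem_Icc] at hk hk'
    rw [f1, f1] at hkk
    have g1 := pr_inj (pr_prime _).one_le (pr_prime _).one_le hkk
    have g2 := pr_inj (by omega) (by omega) g1
    omega
  have hinj : ∀ j, Set.InjOn (f j) I := by
    intro j
    fin_cases j
    · exact hinj0
    · exact hinj1
  have hprime : ∀ j k, (f j k).Prime := by
    intro j k
    fin_cases j
    · show (f 0 k).Prime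
      rw [f0]
      exact pr_prime _
    · show (f 1 k).Prime
      rw [f1]
      exact pr_prime _
  have hX : ∀ j, ∀ k ∈ I, 1 ≤ f j k ∧ f j k ≤ n * d ^ 10 := by
    intro j k hk
    refine ⟨(hprime j k).one_le, ?_⟩
    rw [hI, mem_Icc] at hk
    fin_cases j
    · show f 0 k ≤ n * d ^ 10
      rw [f0]
      exact ((hpr k (by omega)).1).trans (Nat.mul_le_mul_left _ hd4)
    · show f 1 k ≤ n * d ^ 10
      rw [f1]
      exact (hpr (n - k) (by omega)).2
  have hbad : (I.filter (fun i => ∃ j, ¬ (f j i).Coprime (primorial y * h j))).card ≤ d ^ (2 * K₁ + J + 1) := by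
    have hD : ∀ j, 1 ≤ primorial y * h j ∧ primorial y * h j ≤ d ^ (2 * K₁ + J) := fun j =>
      ⟨Nat.mul_pos (primorial_pos y) (hh j).1, Pool.Agent.N625.PT.mult_small K₁ J d y (h j) hd3 hy2 (hh j).2⟩
    calc (I.filter (fun i => ∃ j, ¬ (f j i).Coprime (primorial y * h j))).card
        ≤ (univ.biUnion (fun j : Fin 2 => I.filter (fun i => ¬ (f j i).Coprime (primorial y * h j)))).card := by
          apply card_le_card
          intro i hi
          rw [mem_filter] at hi
          obtain ⟨g1, j, g2⟩ := hi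
          rw [mem_biUnion]
          exact ⟨j, mem_univ _, by rw [mem_filter]; exact ⟨g1, g2⟩⟩
      _ ≤ ∑ j : Fin 2, (I.filter (fun i => ¬ (f j i).Coprime (primorial y * h j))).card := card_biUnion_le
      _ ≤ ∑ _j : Fin 2, d ^ (2 * K₁ + J) := sum_le_sum fun j _ =>
          (bad_few I (f j) (hinj j) (fun i _ => hprime j i) _ (hD j).1).trans (hD j).2
      _ = 2 * d ^ (2 * K₁ + J) := by rw [sum_const, card_univ, Fintype.card_fin, smul_eq_mul]
      _ ≤ d * d ^ (2 * K₁ + J) := Nat.mul_le_mul_right _ (by omega)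
      _ = _ := by rw [pow_succ]; ring
  have hIA : n * d ^ 10 ≤ I.card * d ^ 11 := by
    rw [hIc]
    have g1 : n ≤ (n - 1) * d := by
      have : n - 1 + 1 ≤ (n - 1) * 2 := by omega
      calc n = n - 1 + 1 := by omega
        _ ≤ (n - 1) * 2 := this
        _ ≤ (n - 1) * d := Nat.mul_le_mul_left _ (by omega)
    calc n * d ^ 10 ≤ ((n - 1) * d) * d ^ 10 := Nat.mul_le_mul_right _ g1
      _ = _ := by ring
  exact h0 d (by omega) μ hμ y hy1 hy2 c hc h hh (n * d ^ 10) (by
      calc b ^ d ≤ n * d ^ C := hn1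
        _ ≤ (n * d ^ 10) * d ^ (C + 10) := by
            rw [mul_assoc]
            apply Nat.mul_le_mul_left
            rw [← pow_add]
            exact Nat.pow_le_pow_right (by omega) (by omega)) (by
      calc n * d ^ 10 ≤ (b ^ d * d ^ C) * d ^ 10 := Nat.mul_le_mul_right _ hn2
        _ = _ := by rw [mul_assoc, ← pow_add]) I f hinj hX hbad hIA
    (fun v => |Split n (fun j => Nv y (h j) (c j) (κ j) (v j)) - ((n : ℝ) - 1) / (V y * (d * Real.log b)) ^ 2| ≤
          ε * (((n : ℝ) - 1) / (V y * (d * Real.log b)) ^ 2)) (fun v hpos hv => by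
    have e1 : ((I.card : ℕ) : ℝ) = (n : ℝ) - 1 := by
      rw [hIc, Nat.cast_sub (by omega), Nat.cast_one]
    have e2 : ((I.filter (fun i => ∀ j : Fin 2, (Pool.Agent.N625.PT.Nm y (h j) (c j) (κ j) (v j) + (f j i : ℕ)).toNat.Prime)).card : ℝ) =
        Split n (fun j => Nv y (h j) (c j) (κ j) (v j)) := by
      unfold Split
      rw [hI]
      congr 2
      apply filter_congr
      intro i _
      rw [Fin.forall_fin_two, f0, f1]
      have g0 : Pool.Agent.N625.PT.Nm y (h 0) (c 0) (κ 0) (v 0) + (pr i : ℕ) = (p i : ℤ) + Nv y (h 0) (c 0) (κ 0) (v 0) := add_comm _ _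
      have g1 : Pool.Agent.N625.PT.Nm y (h 1) (c 1) (κ 1) (v 1) + (pr (pr (n - i)) : ℕ) =
          (p (p (n - i)) : ℤ) + Nv y (h 1) (c 1) (κ 1) (v 1) := add_comm _ _
      rw [g0, g1]
    rw [e1, e2] at hv
    exact hv)

end Pool.Agent.Results.MP_04e9b2_nt.IndicesOnAverage
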