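import Pool.Agent.Run7.h844.RP.PwR7

/-!
# EVERY large `n = k + m`: `p_k + N₀` and `p_{p_m} + N₁` prime, for multiples of values of generalised polynomials at primes

Method: exponential sums over primes with the phase of a generalised polynomial: derivative bounds uniform in the
coefficients, van der Corput differencing of all orders, bilinear sums, Vaughan's identity (after `Pool.Agent.H895R3.NK`,
`Pool.Agent.H373R2.T7`), with a power saving at all frequencies up to a power, and a discrete Fejér kernel for the passage to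
the integer parts (library `Pool.Agent.Run7.h844.RP`). With this input the sieve
for classes of laws with small exponential sums (`Pool.Agent.N625.PT`, `Pool.Agent.Run7.h672.XC`) goes through.
-/

set_option autoImplicit false

open Finset

namespace Pool.Agent.Results.MP_04e9b2_nt.ValuesAtPrimes

/-- The generalised polynomial `∑ a x * t ^ x`, `x ∈ F`, with real exponents and coefficients. -/
noncomputable def genPoly (F : Finset ℝ) (a : ℝ → ℝ) (t : ℝ) : ℝ := ∑ x ∈ F, a x * t ^ x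

/-- `c` is the largest exponent; it is positive and not an integer, and its coefficient is not zero. -/
def Leading (F : Finset ℝ) (a : ℝ → ℝ) (c : ℝ) : Prop :=
  c ∈ F ∧ (∀ x ∈ F, x ≤ c) ∧ 0 < c ∧ (∀ m : ℕ, c ≠ m) ∧ a c ≠ 0

/-- the product of `1 - 1/q` over the primes `q ≤ y` -/
noncomputable def V (y : ℕ) : ℝ := ∏ q ∈ (Icc 1 y).filter Nat.Prime, (1 - 1 / (q : ℝ))

/-- the multiple of the product of the primes `≤ y` given by the integers `h` and `w` -/
def Nw (y h : ℕ) (w : ℤ) : ℤ := ((primorial y * h : ℕ) : ℤ) * w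

/-- the `k`-th prime, `p 1 = 2` -/
noncomputable def p (k : ℕ) : ℕ := Nat.nth Nat.Prime (k - 1)

open Classical in
/-- the `k ∈ K` such that `p_k + N 0` and `p_{p_m} + N 1` are prime, where `m = n - k` -/
noncomputable def Good (K : Finset ℕ) (n : ℕ) (N : Fin 2 → ℤ) : Finset ℕ :=
  K.filter (fun k => ((p k : ℤ) + N 0).toNat.Prime ∧ ((p (p (n - k)) : ℤ) + N 1).toNat.Prime)

/-- the main term -/
noncomputable def Main (K : Finset ℕ) (y M : ℕ) : ℝ := K.card / (V y * Real.log M) ^ 2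

/-- The pair `w` is `ε`-good for `K`: if the multiples `N_j = h_j w_j ∏_{l ≤ y} l` are positive, then the number of the
`k ∈ K` such that `p_k + N_0` and `p_{p_m} + N_1` are prime, `m = n - k`, differs from the main term by at most `ε` times the
main term. -/
def GoodFor (ε : ℝ) (K : Finset ℕ) (y : ℕ) (h : Fin 2 → ℕ) (n M : ℕ) (w : Fin 2 → ℤ) : Prop :=
  (∀ j, 0 < Nw y (h j) (w j)) →
    |((Good K n (fun j => Nw y (h j) (w j))).card : ℝ) - Main K y M| ≤ ε * Main K y M

theorem nth_inj : Function.Injective (Nat.nth Nat.Prime) := Nat.nth_injective Nat.infinite_setOfPred_prime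

theorem p_inj (n : ℕ) : Set.InjOn p (Ioo 0 n : Finset ℕ) := by
  intro a ha b hb hab
  rw [mem_coe, mem_Ioo] at ha hb
  have := nth_inj hab
  omega

theorem pp_inj (n : ℕ) : Set.InjOn (fun k => p (p (n - k))) (Ioo 0 n : Finset ℕ) := by
  intro a ha b hb hab
  rw [mem_coe, mem_Ioo] at ha hb
  have h1 := nth_inj hab
  have h2 : 2 ≤ p (n - a) := (Nat.prime_nth_prime _).two_le
  have h3 : 2 ≤ p (n - b) := (Nat.prime_nth_prime _).two_le
  have h4 : p (n - a) = p (n - b) := by omega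
  have h5 := nth_inj h4
  omega

open Classical in
/-- Let `g_j(t) = ∑ b_j x t ^ x`, `j < 2`, be generalised polynomials (real exponents and coefficients) whose largest exponents
`e_j` are positive and not integers. Let `M` be large, `X_j ^ e_j log M ≤ M ≤ X_j ^ e_j log ^ W M`, `|z_j|, |c_j| ≤ B M`
(`z_j` real, `c_j` an integer), let `y` be between `θ log log M` and `K₁ log log M` (`θ > 0` is arbitrary),
`1 ≤ h_j ≤ log ^ J M`, let `n` be ANY integer with `M ≤ n log ^ C M`, `n ≤ M log ^ C M`, and let `K` be ANY set of integers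
`0 < k < n` with `n ≤ #K log ^ A M` (for instance all of them). For all the pairs of primes `(q_0, q_1)`,
`X_j < q_j ≤ 2 X_j`, up to a proportion `ε`, with `N_j = h_j (c_j + κ_j ⌊g_j(q_j) + z_j⌋) ∏_{l ≤ y} l` (`l` prime): if
`N_0, N_1 > 0`, then the number of the `k ∈ K` such that `p_k + N_0` and `p_{p_m} + N_1` are prime, `m = n - k`, differs from
`E = #K / (V y log M) ^ 2` by at most `ε E`. -/
theorem result (F : Fin 2 → Finset ℝ) (b : Fin 2 → ℝ → ℝ) (e : Fin 2 → ℝ) (hF : ∀ j, Leading (F j) (b j) (e j))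
    (κ : Fin 2 → ℤ) (hκ : ∀ j, κ j ≠ 0) (B J A C K₁ W : ℕ) (θ : ℝ)
    (hθ : 0 < θ) (ε : ℝ) (hε : 0 < ε) (hε1 : ε ≤ 1) : ∃ M₀ : ℕ, ∀ M : ℕ, M₀ ≤ M →
    ∀ X : Fin 2 → ℕ, (∀ j, (X j : ℝ) ^ (e j) * Real.log M ≤ M ∧ (M : ℝ) ≤ (X j : ℝ) ^ (e j) * Real.log M ^ W) →
    ∀ (z : Fin 2 → ℝ) (c : Fin 2 → ℤ), (∀ j, |z j| ≤ B * M ∧ |c j| ≤ B * M) →
    ∀ y : ℕ, θ * Real.log (Real.log M) ≤ y → y ≤ K₁ * Real.log (Real.log M) →
    ∀ h : Fin 2 → ℕ, (∀ j, 1 ≤ h j ∧ (h j : ℝ) ≤ Real.log M ^ J) →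
    ∀ n : ℕ, (M : ℝ) ≤ n * Real.log M ^ C → (n : ℝ) ≤ M * Real.log M ^ C →
    ∀ K : Finset ℕ, K ⊆ Ioo 0 n → (n : ℝ) ≤ K.card * Real.log M ^ A →
      (((Fintype.piFinset fun j => (Ioc (X j) (2 * X j)).filter Nat.Prime).filter fun q : Fin 2 → ℕ =>
          ¬ GoodFor ε K y h n M (fun j => c j + κ j * ⌊genPoly (F j) (b j) (q j) + z j⌋)).card : ℝ) ≤
        ε * ∏ j, (((Ioc (X j) (2 * X j)).filter Nat.Prime).card : ℝ) := by
  choose hcF hmax hc hn hb using hF
  obtain ⟨M₁, h1⟩ := Pool.Agent.Run7.h844.RP.tup_prP 2 F b e hcF hn hc hmax hb κ hκ B J A C 6 K₁ W θ hθ ε hε hε1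
  obtain ⟨M₂, h2⟩ := Pool.Agent.Run7.h844.RP.nth_M C
  obtain ⟨M₃, h3⟩ := Pool.Agent.Run7.h844.RP.logM_ge 1
  refine ⟨max (max M₁ M₂) M₃, fun M hM X hX z c hzc y hy1 hy2 h hh n hx1 hx2 K hK hKc => ?_⟩
  have hnth := h2 M (by omega) n hx1 hx2
  have hl1 := h3 M (by omega)
  obtain ⟨f, hf⟩ : ∃ f : Fin 2 → ℕ → ℕ, f = ![fun k => p k, fun k => p (p (n - k))] := ⟨_, rfl⟩
  have hf0 : ∀ k, f 0 k = p k := fun k => by rw [hf]; rfl
  have hf1 : ∀ k, f 1 k = p (p (n - k)) := fun k => by rw [hf]; rfl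
  have hf0' : f 0 = p := funext hf0
  have hf1' : f 1 = fun k => p (p (n - k)) := funext hf1
  have h5 := h1 M (by omega) X hX z c hzc y hy1 hy2 h hh n hx1 hx2 K f (by
      intro j
      fin_cases j
      · show Set.InjOn (f 0) K
        rw [hf0']
        exact (p_inj n).mono (by exact_mod_cast hK)
      · show Set.InjOn (f 1) K
        rw [hf1']
        exact (pp_inj n).mono (by exact_mod_cast hK)) (by
      intro j k hk
      have hk' := mem_Ioo.1 (hK hk)
      fin_cases j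
      · show (f 0 k).Prime ∧ (f 0 k : ℝ) ≤ n * Real.log M ^ 6
        rw [hf0]
        refine ⟨Nat.prime_nth_prime _, ((hnth (k - 1) (by omega)).1).trans ?_⟩
        exact mul_le_mul_of_nonneg_left (pow_le_pow_right₀ hl1 (by norm_num)) (Nat.cast_nonneg _)
      · show (f 1 k).Prime ∧ (f 1 k : ℝ) ≤ n * Real.log M ^ 6
        rw [hf1]
        exact ⟨Nat.prime_nth_prime _, (hnth (n - k - 1) (by omega)).2⟩) hKc
  refine le_trans ?_ h5
  apply Nat.cast_le.2
  apply card_le_card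
  intro q hq
  rw [mem_filter] at hq ⊢
  refine ⟨hq.1, fun hT => hq.2 fun hpos => ?_⟩
  have h6 := hT hpos
  have hset : Good K n (fun j => Nw y (h j) (c j + κ j * ⌊genPoly (F j) (b j) (q j) + z j⌋)) =
      K.filter (fun i => ∀ j : Fin 2, (Pool.Agent.Run7.h844.RP.NmW y (h j) (c j + κ j *
        Pool.Agent.Run7.h844.RP.vz (F j) (b j) (z j) (q j)) + (f j i : ℕ)).toNat.Prime) := by
    unfold Good
    apply filter_congr
    intro k _
    rw [Fin.forall_fin_two, hf0, hf1]
    constructor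
    · rintro ⟨g1, g2⟩
      rw [add_comm] at g1 g2
      exact ⟨g1, g2⟩
    · rintro ⟨g1, g2⟩
      rw [add_comm] at g1 g2
      exact ⟨g1, g2⟩
  rw [hset]
  exact h6

end Pool.Agent.Results.MP_04e9b2_nt.ValuesAtPrimes
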