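import Pool.Agent.Run7.h672.WT.G

/-!
# EVERY large `n`: the number of the splittings `n = k + m`, `k` in an ARBITRARY dense set, with `p_k + N₀` and `p_{p_m} + N₁`
# prime, where the number `2` of the problem is replaced by multiples of random integers written by independent random words

The definitions `len`, `Words`, `cat`, `noRest`, `cutWord`, `WordLaw` are in `Pool.Agent.Run7.h672.CC.Defs`.

Method: a strong renewal theorem for the places at which a word ends; between two such places, at a positive proportion of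
the places, two words which do not commute can be exchanged (`w w'` and `w' w` have the same length, the same probability,
and different digits), whatever the language is; hence the characteristic function is exponentially small in the number of the
places at which the frequency is not close to a rational number with a small denominator (`Pool.Agent.Run7.h672.CC`). With this
input the sieve and the circle method of the starting library for exchangeable blocks (`Pool.Agent.N625.PT`) go through
(`Pool.Agent.Run7.h672.XC`). The application to this problem follows `IndicesOnAverage` (helper414).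
-/

set_option autoImplicit false

open Finset
open Pool.Agent.Run7.h672.CC
open Pool.Agent.Run7.h672.WT (cls_tuple' bad_few pr pr_prime pr_lt pr_strict pr_inj pr_le)

namespace Pool.Agent.Results.MP_04e9b2_nt.WordGaps

/-- the `j`-th prime, `j ≥ 1` -/
noncomputable def p (j : ℕ) : ℕ := Nat.nth Nat.Prime (j - 1)

/-- the product of `1 - 1/q` over the primes `q ≤ y` -/
noncomputable def V (y : ℕ) : ℝ := ∏ q ∈ (Icc 1 y).filter Nat.Prime, (1 - 1 / (q : ℝ))

/-- the multiple of the product of the primes `≤ y` given by the integers `h` and `c + κ v` -/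
def Nv (y h : ℕ) (c κ : ℤ) (v : ℕ) : ℤ := ((primorial y * h : ℕ) : ℤ) * (c + κ * v)

/-- the number of the splittings `n = k + m`, `k` in `K`, such that `p_k + N 0` and `p_{p_m} + N 1` are prime -/
noncomputable def Split (n : ℕ) (K : Finset ℕ) (N : Fin 2 → ℤ) : ℝ :=
  (K.filter (fun k : ℕ => ((p k : ℤ) + N 0).toNat.Prime ∧ ((p (p (n - k)) : ℤ) + N 1).toNat.Prime)).card

/-- Let `W` be the law of a random word in base `b` (`Words b W`: any language, finite or infinite, lengths with an
exponential moment and without a common divisor, and two words which do not commute). Let `v j < b ^ d`, `j < 2`, be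
independent random integers whose digits are written by independent random words with the law `W`, conditioned on the total
length `d`, or cut after `d` digits (`WordLaw b W d (μ j)`), let `y` be between `θ log d` and `K₁ log d` (`θ > 0` is arbitrary),
`M` the product of the primes `≤ y` (a power of `d` only), `|c j| ≤ B b ^ d`, `1 ≤ h j ≤ d ^ J`, `N_j = M h_j (c_j + κ_j v_j)`,
let `n` be ANY integer with `b ^ d ≤ n d ^ C`, `n ≤ b ^ d d ^ C`, and `K` ANY set of at least `n / d ^ A` integers `1 ≤ k < n`.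
Up to a probability of at most `ε`, if all `N_j > 0`, then the number of the splittings `n = k + m`, `k` in `K`, such that
`p_k + N_0` and `p_{p_m} + N_1` are prime differs from `E = #K / (V y log b ^ d) ^ 2` by at most `ε E`. -/
theorem result : ∀ (b : ℕ) (W : ℕ → ℕ → ℝ), Words b W → ∀ (κ : Fin 2 → ℤ), (∀ j, κ j ≠ 0) →
    ∀ (B J A C K₁ : ℕ) (θ : ℝ), 0 < θ → ∀ ε : ℝ, 0 < ε → ε ≤ 1 → ∃ d₀ : ℕ, ∀ d : ℕ, d₀ ≤ d →
    ∀ μ : Fin 2 → ℕ → ℝ, (∀ j, WordLaw b W d (μ j)) →
    ∀ y : ℕ, θ * Real.log d ≤ y → y ≤ K₁ * Real.log d →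
    ∀ c : Fin 2 → ℤ, (∀ j, |c j| ≤ B * (b : ℤ) ^ d) → ∀ h : Fin 2 → ℕ, (∀ j, 1 ≤ h j ∧ h j ≤ d ^ J) →
    ∀ n : ℕ, b ^ d ≤ n * d ^ C → n ≤ b ^ d * d ^ C → ∀ K : Finset ℕ, K ⊆ Icc 1 (n - 1) → n ≤ K.card * d ^ A →
      ∑ v ∈ Fintype.piFinset (fun _ : Fin 2 => range (b ^ d)), (if (∀ j, 0 < Nv y (h j) (c j) (κ j) (v j)) →
        |Split n K (fun j => Nv y (h j) (c j) (κ j) (v j)) - K.card / (V y * (d * Real.log b)) ^ 2| ≤
          ε * (K.card / (V y * (d * Real.log b)) ^ 2) then 0 else ∏ j, μ j (v j)) ≤ ε := by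
  classical
  intro b W hW κ hκ B J A C K₁ θ hθ ε hε hε1
  obtain ⟨L, T, hcls⟩ := Pool.Agent.Run7.h672.XC.word_rcls hW
  have hb := hW.two
  obtain ⟨k0, h0⟩ := cls_tuple' hcls 2 κ hκ B J (A + 10) (C + 10) (2 * K₁ + J + 1) K₁ θ hθ ε hε hε1
  obtain ⟨k1, h1⟩ := pr_le b C hb
  obtain ⟨k2, h2⟩ := Pool.Agent.N625.PT.X_large b C hb
  refine ⟨max (max k0 k1) (max k2 3), fun d hd μ hμ y hy1 hy2 c hc h hh n hn1 hn2 I hIK hKA => ?_⟩
  have hd3 : 3 ≤ d := by omega
  have hdn := h2 d (by omega) n hn1
  have hpr := h1 d (by omega) n hn1 hn2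
  have hd1 : 1 ≤ d ^ 10 := Nat.one_le_pow _ _ (by omega)
  have hd4 : d ^ 4 ≤ d ^ 10 := Nat.pow_le_pow_right (by omega) (by norm_num)
  obtain ⟨f, hf⟩ : ∃ f : Fin 2 → ℕ → ℕ, f = ![fun k => pr k, fun k => pr (pr (n - k))] := ⟨_, rfl⟩
  have f0 : ∀ k, f 0 k = pr k := fun k => by rw [hf]; rfl
  have f1 : ∀ k, f 1 k = pr (pr (n - k)) := fun k => by rw [hf]; rfl
  have hinj0 : Set.InjOn (f 0) I := by
    intro k hk k' hk' hkk
    replace hk := mem_Icc.1 (hIK (by exact_mod_cast hk))
    replace hk' := mem_Icc.1 (hIK (by exact_mod_cast hk'))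
    rw [f0, f0] at hkk
    exact pr_inj hk.1 hk'.1 hkk
  have hinj1 : Set.InjOn (f 1) I := by
    intro k hk k' hk' hkk
    replace hk := mem_Icc.1 (hIK (by exact_mod_cast hk))
    replace hk' := mem_Icc.1 (hIK (by exact_mod_cast hk'))
    rw [f1, f1] at hkk
    have g1 := pr_inj (pr_prime _).one_le (pr_prime _).one_le hkk
    have g2 := pr_inj (by omega) (by omega) g1
    omega
  have hinj : ∀ j, Set.InjOn (f j) I := by
    intro j
    fin_cases j
    · exact hinj0
    · exact hinj1
  have hprime : ∀ j k, (f j k).Prime := by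
    intro j k
    fin_cases j
    · show (f 0 k).Prime
      rw [f0]
      exact pr_prime _
    · show (f 1 k).Prime
      rw [f1]
      exact pr_prime _
  have hX : ∀ j, ∀ k ∈ I, 1 ≤ f j k ∧ f j k ≤ n * d ^ 10 := by
    intro j k hk
    refine ⟨(hprime j k).one_le, ?_⟩
    replace hk := mem_Icc.1 (hIK hk)
    fin_cases j
    · show f 0 k ≤ n * d ^ 10
      rw [f0]
      exact ((hpr k (by omega)).1).trans (Nat.mul_le_mul_left _ hd4)
    · show f 1 k ≤ n * d ^ 10
      rw [f1]
      exact (hpr (n - k) (by omega)).2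
  have hbad : (I.filter (fun i => ∃ j, ¬ (f j i).Coprime (primorial y * h j))).card ≤ d ^ (2 * K₁ + J + 1) := by
    have hD : ∀ j, 1 ≤ primorial y * h j ∧ primorial y * h j ≤ d ^ (2 * K₁ + J) := fun j =>
      ⟨Nat.mul_pos (primorial_pos y) (hh j).1, Pool.Agent.N625.PT.mult_small K₁ J d y (h j) hd3 hy2 (hh j).2⟩
    calc (I.filter (fun i => ∃ j, ¬ (f j i).Coprime (primorial y * h j))).card
        ≤ (univ.biUnion (fun j : Fin 2 => I.filter (fun i => ¬ (f j i).Coprime (primorial y * h j)))).card := by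
          apply card_le_card
          intro i hi
          rw [mem_filter] at hi
          obtain ⟨g1, j, g2⟩ := hi
          rw [mem_biUnion]
          exact ⟨j, mem_univ _, by rw [mem_filter]; exact ⟨g1, g2⟩⟩
      _ ≤ ∑ j : Fin 2, (I.filter (fun i => ¬ (f j i).Coprime (primorial y * h j))).card := card_biUnion_le
      _ ≤ ∑ _j : Fin 2, d ^ (2 * K₁ + J) := sum_le_sum fun j _ =>
          (bad_few I (f j) (hinj j) (fun i _ => hprime j i) _ (hD j).1).trans (hD j).2
      _ = 2 * d ^ (2 * K₁ + J) := by rw [sum_const, card_univ, Fintype.card_fin, smul_eq_mul]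
      _ ≤ d * d ^ (2 * K₁ + J) := Nat.mul_le_mul_right _ (by omega)
      _ = _ := by rw [pow_succ]; ring
  have hIA : n * d ^ 10 ≤ I.card * d ^ (A + 10) := by
    calc n * d ^ 10 ≤ (I.card * d ^ A) * d ^ 10 := Nat.mul_le_mul_right _ hKA
      _ = _ := by rw [mul_assoc, ← pow_add]
  exact h0 d (by omega) μ hμ y hy1 hy2 c hc h hh (n * d ^ 10) (by
      calc b ^ d ≤ n * d ^ C := hn1
        _ ≤ (n * d ^ 10) * d ^ (C + 10) := by
            rw [mul_assoc]
            apply Nat.mul_le_mul_left
            rw [← pow_add]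
            exact Nat.pow_le_pow_right (by omega) (by omega)) (by
      calc n * d ^ 10 ≤ (b ^ d * d ^ C) * d ^ 10 := Nat.mul_le_mul_right _ hn2
        _ = _ := by rw [mul_assoc, ← pow_add]) I f hinj hX hbad hIA
    (fun v => |Split n I (fun j => Nv y (h j) (c j) (κ j) (v j)) - I.card / (V y * (d * Real.log b)) ^ 2| ≤
          ε * (I.card / (V y * (d * Real.log b)) ^ 2)) (fun v hpos hv => by
    have e2 : ((I.filter (fun i => ∀ j : Fin 2, (Pool.Agent.N625.PT.Nm y (h j) (c j) (κ j) (v j) + (f j i : ℕ)).toNat.Prime)).card : ℝ) =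
        Split n I (fun j => Nv y (h j) (c j) (κ j) (v j)) := by
      unfold Split
      congr 2
      apply filter_congr
      intro i _
      rw [Fin.forall_fin_two, f0, f1]
      have g0 : Pool.Agent.N625.PT.Nm y (h 0) (c 0) (κ 0) (v 0) + (pr i : ℕ) = (p i : ℤ) + Nv y (h 0) (c 0) (κ 0) (v 0) := add_comm _ _
      have g1 : Pool.Agent.N625.PT.Nm y (h 1) (c 1) (κ 1) (v 1) + (pr (pr (n - i)) : ℕ) =
          (p (p (n - i)) : ℤ) + Nv y (h 1) (c 1) (κ 1) (v 1) := add_comm _ _
      rw [g0, g1]
    rw [e2] at hv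
    exact hv)

end Pool.Agent.Results.MP_04e9b2_nt.WordGaps
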